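import Pool.Agent.Run7.h777.VA.Step
import Pool.Agent.N143.LV.CORE
import Pool.Agent.N541.LV.Main

/-!
# Vinogradov's system over arbitrary sets: counting all sequences
-/

set_option autoImplicit false

namespace Pool.Agent.Run7.h777.VA

open Finset Pool.Agent.N541.LV Pool.Agent.N143.LV

/-- live sequences with entries in `A` -/
def LiveA (d : ℕ) (R : Fin d → ℕ) (A : Finset ℕ) (p : List ℕ) : Prop :=
  Live d R p ∧ ∀ z ∈ p, z ∈ A

theorem W_nilA {d : ℕ} (q X Q s C0 : ℕ) (_hd : 1 ≤ d) (hds : d ≤ s) (hq : 1 ≤ q) (hX : 1 ≤ X)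
    (hQ : 1 ≤ Q) (R : Fin d → ℕ) (hR : ∀ l, 1 ≤ R l ∧ R l ≤ C0 * X ^ (s - (l : ℕ))) :
    Wt q Q (⊤ : AddSubgroup (Fin d → ℤ)) R ≤ ((3 * C0 : ℝ) ^ d) ^ (1 / (q : ℝ)) *
      ((X : ℝ) ^ (((d : ℝ) * s - (d : ℝ) * (d - 1) / 2) / q) *
        (Q : ℝ) ^ ((1 - 1 / (q : ℝ)) * ((d : ℝ) - 1))) := by
  have hX' : (1 : ℝ) ≤ X := by exact_mod_cast hX
  have hX0 : (0 : ℝ) < X := by linarith
  have hQ' : (1 : ℝ) ≤ Q := by exact_mod_cast hQ
  unfold Wt
  have h1 : ((pts (⊤ : AddSubgroup (Fin d → ℤ)) R).card : ℝ) ^ (1 / (q : ℝ)) ≤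
      ((3 * C0 : ℝ) ^ d) ^ (1 / (q : ℝ)) *
        (X : ℝ) ^ (((d : ℝ) * s - (d : ℝ) * (d - 1) / 2) / q) := by
    have h := card_top X s C0 R hR
    have h' : ((pts (⊤ : AddSubgroup (Fin d → ℤ)) R).card : ℝ) ≤
        (3 * C0 : ℝ) ^ d * (X : ℝ) ^ (((d : ℝ) * s - (d : ℝ) * (d - 1) / 2)) := by
      rw [← sum_exp d s hds, Real.rpow_natCast]
      exact_mod_cast h
    calc ((pts (⊤ : AddSubgroup (Fin d → ℤ)) R).card : ℝ) ^ (1 / (q : ℝ))
        ≤ ((3 * C0 : ℝ) ^ d * (X : ℝ) ^ (((d : ℝ) * s - (d : ℝ) * (d - 1) / 2))) ^ (1 / (q : ℝ)) :=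
          Real.rpow_le_rpow (by positivity) h' (by positivity)
      _ = _ := by
          rw [Real.mul_rpow (by positivity) (by positivity), ← Real.rpow_mul hX0.le, mul_one_div]
  have h2 : (Q : ℝ) ^ ((1 - 1 / (q : ℝ)) * ((rk (⊤ : AddSubgroup (Fin d → ℤ)) R : ℝ) - 1)) ≤
      (Q : ℝ) ^ ((1 - 1 / (q : ℝ)) * ((d : ℝ) - 1)) := by
    apply Real.rpow_le_rpow_of_exponent_le hQ'
    apply mul_le_mul_of_nonneg_left _ (q_nonneg hq)
    have : (rk (⊤ : AddSubgroup (Fin d → ℤ)) R : ℝ) ≤ d := by exact_mod_cast rk_le _ R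
    linarith
  calc _ ≤ (((3 * C0 : ℝ) ^ d) ^ (1 / (q : ℝ)) *
        (X : ℝ) ^ (((d : ℝ) * s - (d : ℝ) * (d - 1) / 2) / q)) *
        (Q : ℝ) ^ ((1 - 1 / (q : ℝ)) * ((d : ℝ) - 1)) :=
        mul_le_mul h1 h2 (by positivity) (by positivity)
    _ = _ := by rw [mul_assoc]

/-- the step of `Step.lean`, with all hypotheses discharged -/
theorem stepA' (d m q s C0 : ℕ) (hd : 1 ≤ d) (hm : 1 ≤ m) (hq : 1 ≤ q) (ε : ℝ) (hε : 0 < ε) :
    ∃ C : ℝ, 0 < C ∧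
  ∀ X : ℕ, 1 ≤ X → ∀ (R : Fin d → ℕ), (∀ l, 1 ≤ R l ∧ R l ≤ C0 * X ^ s) →
  ∀ (Λ : AddSubgroup (Fin d → ℤ)) (o : Fin m → ℕ), (∀ j, 1 ≤ o j ∧ o j ≤ X) →
  ∀ (Q : ℕ) (Z : Finset ℕ), Z.card ≤ Q → Z ⊆ Finset.Icc 1 X →
    (∀ z ∈ Z, ∃ P ∈ pts (sub Λ o z) R, ev P (z : ℤ) ≠ 0 ∧ ∀ j, ev P (o j : ℤ) ≠ 0) →
    ∑ z ∈ Z, Wt q Q (sub Λ o z) R ≤
      C * (X : ℝ) ^ ε * (Q : ℝ) ^ (max 0 (1 - (m : ℝ) / q)) * Wt q Q Λ R :=
  stepA (Pool.Agent.N916.LV.Idx.main Pool.Agent.N401.LV.main)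
      Pool.Agent.N374.LVGCD.gcd_main Pool.Agent.N374.LVGCD.cong_main
      (Pool.Agent.N622.LV.COST.main divM)
      (Pool.Agent.N432.LV.Drop.main Pool.Agent.N401.LV.main Pool.Agent.N374.LVGCD.cong_main divM)
      d m q s C0 hd hm hq ε hε

open scoped Classical in
theorem coreA (d q s C0 : ℕ) (hd : 1 ≤ d) (hds : d ≤ s) (hq : 1 ≤ q) (ε : ℝ) (hε : 0 < ε) :
    ∃ C : ℝ, 0 < C ∧
  ∀ X : ℕ, 1 ≤ X → ∀ (R : Fin d → ℕ), (∀ l, 1 ≤ R l ∧ R l ≤ C0 * X ^ (s - (l : ℕ))) →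
    ∀ A : Finset ℕ, A.Nonempty →
    ((seqs X (LiveA d R A) (2 * s)).card : ℝ) ≤
      C * (X : ℝ) ^ (((d : ℝ) * s - (d : ℝ) * (d - 1) / 2) / q + ε) *
        (A.card : ℝ) ^ ((q : ℝ) + (1 - 1 / (q : ℝ)) * ((d : ℝ) - 1)) := by
  set e1 : ℝ := ε / (2 * s + 1) with he1
  have hs1 : (1 : ℝ) ≤ s := by exact_mod_cast hd.trans hds
  have he1pos : 0 < e1 := by positivity
  have hex : ∀ m : ℕ, ∃ C : ℝ, 0 < C ∧ (1 ≤ m →
      ∀ X : ℕ, 1 ≤ X → ∀ (R : Fin d → ℕ), (∀ l, 1 ≤ R l ∧ R l ≤ C0 * X ^ s) →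
      ∀ (Λ : AddSubgroup (Fin d → ℤ)) (o : Fin m → ℕ), (∀ j, 1 ≤ o j ∧ o j ≤ X) →
      ∀ (Q : ℕ) (Z : Finset ℕ), Z.card ≤ Q → Z ⊆ Finset.Icc 1 X →
      (∀ z ∈ Z, ∃ P ∈ pts (sub Λ o z) R, ev P (z : ℤ) ≠ 0 ∧ ∀ j, ev P (o j : ℤ) ≠ 0) →
      ∑ z ∈ Z, Wt q Q (sub Λ o z) R ≤
        C * (X : ℝ) ^ e1 * (Q : ℝ) ^ (max 0 (1 - (m : ℝ) / q)) * Wt q Q Λ R) := by
    intro m
    by_cases hm : 1 ≤ m
    · obtain ⟨C, hC, h⟩ := stepA' d m q s C0 hd hm hq e1 he1pos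
      exact ⟨C, hC, fun _ => h⟩
    · exact ⟨1, one_pos, fun h => absurd h hm⟩
  choose Cs hCs hstep using hex
  set PC : ℝ := ∏ t ∈ Finset.range (2 * s - 1), Cs ((t + 2) / 2) with hPC
  have hPCpos : 0 < PC := Finset.prod_pos fun t _ => hCs _
  refine ⟨PC * (((3 * C0 : ℝ) ^ d) ^ (1 / (q : ℝ)) + 1), by positivity, ?_⟩
  intro X hX R hR A hA
  obtain ⟨Q, hQdef⟩ : ∃ Q : ℕ, Q = A.card := ⟨_, rfl⟩
  rw [← hQdef]
  have hQ : 1 ≤ Q := by
    rw [hQdef]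
    exact Finset.card_pos.2 hA
  have hQ' : (1 : ℝ) ≤ Q := by exact_mod_cast hQ
  have hQ0 : (0 : ℝ) < Q := by linarith
  have hX' : (1 : ℝ) ≤ X := by exact_mod_cast hX
  have hX0 : (0 : ℝ) < X := by linarith
  have hRs : ∀ l, 1 ≤ R l ∧ R l ≤ C0 * X ^ s := fun l => ⟨(hR l).1,
    (hR l).2.trans (Nat.mul_le_mul_left _ (Nat.pow_le_pow_right hX (Nat.sub_le _ _)))⟩
  set W : List ℕ → ℝ := fun p => Wt q Q (lat d p) R with hW
  set K : ℕ → ℝ := fun t => match t with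
    | 0 => (Q : ℝ)
    | t + 1 => Cs ((t + 2) / 2) * (X : ℝ) ^ e1 *
        (Q : ℝ) ^ (max 0 (1 - ((((t + 2) / 2 : ℕ) : ℝ)) / (q : ℝ))) with hK
  have hWnil : 1 ≤ W [] := by
    apply Wt_ge q Q hq hQ
    refine ⟨Pi.single ⟨0, hd⟩ 1, ?_, ?_⟩
    · unfold pts
      rw [Finset.mem_filter]
      refine ⟨?_, AddSubgroup.mem_top _⟩
      unfold Pool.Agent.N541.LV.box
      rw [Fintype.mem_piFinset]
      intro l
      rw [Finset.mem_Icc]
      have h1 := (hR l).1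
      by_cases hl : l = ⟨0, hd⟩
      · subst hl
        rw [Pi.single_eq_same]
        constructor <;> omega
      · rw [Pi.single_eq_of_ne hl]
        constructor <;> omega
    · intro h
      have := congrFun h ⟨0, hd⟩
      rw [Pi.single_eq_same] at this
      exact one_ne_zero this
  have hWlive : ∀ p, LiveA d R A p → 1 ≤ W p := by
    intro p hp
    cases p with
    | nil => exact hWnil
    | cons z p =>
      obtain ⟨⟨P, hP, hz⟩, -⟩ := hp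
      apply Wt_ge q Q hq hQ
      refine ⟨P, hP, ?_⟩
      intro h0
      apply hz z (by simp)
      rw [h0]
      simp [ev]
  have hKnn : ∀ t, 0 ≤ K t := by
    intro t
    cases t with
    | zero => exact hQ0.le
    | succ t =>
      have := hCs ((t + 2) / 2)
      simp only [hK]
      positivity
  have htree := Pool.Agent.N255.LV.tree_main X (2 * s) (LiveA d R A) W K hWlive hWnil hKnn (by
    intro t _ p hp Z hZ hL
    obtain ⟨hlen, hent, hlive⟩ := seqs_mem X (LiveA d R A) t p hp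
    have hZA : Z ⊆ A := fun z hz => (hL z hz).2 z (by simp)
    have hZQ : Z.card ≤ Q := by
      rw [hQdef]
      exact Finset.card_le_card hZA
    cases t with
    | zero =>
      have hp0 : p = [] := List.length_eq_zero_iff.1 hlen
      subst hp0
      have h1 : ∀ z, W [z] = W [] := by
        intro z
        simp only [hW, lat]
        rw [sub_nil]
      calc ∑ z ∈ Z, W [z] = Z.card * W [] := by
            rw [Finset.sum_congr rfl fun z _ => h1 z, Finset.sum_const, nsmul_eq_mul]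
        _ ≤ Q * W [] := by
            apply mul_le_mul_of_nonneg_right _ (by linarith)
            exact_mod_cast hZQ
    | succ t =>
      have hm : 1 ≤ (p.length + 1) / 2 := by omega
      have h1 := hstep ((p.length + 1) / 2) hm X hX R hRs (lat d p) (opp p) (by
        intro j
        have hj := j.isLt
        have hlt : 2 * (j : ℕ) < p.length := by omega
        have : opp p j ∈ p := by
          unfold opp
          rw [List.getD_eq_getElem _ _ hlt]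
          exact List.getElem_mem _
        exact hent _ this) Q Z hZQ hZ (by
        intro z hz
        obtain ⟨⟨P, hP, hPz⟩, -⟩ := hL z hz
        refine ⟨P, hP, hPz z (by simp), ?_⟩
        intro j
        apply hPz
        apply List.mem_cons_of_mem
        have hj := j.isLt
        have hlt : 2 * (j : ℕ) < p.length := by omega
        unfold opp
        rw [List.getD_eq_getElem _ _ hlt]
        exact List.getElem_mem _)
      have h2 : (p.length + 1) / 2 = (t + 2) / 2 := by omega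
      have h3 : Cs ((p.length + 1) / 2) * (X : ℝ) ^ e1 *
          (Q : ℝ) ^ (max 0 (1 - ((((p.length + 1) / 2 : ℕ) : ℝ)) / (q : ℝ))) = K (t + 1) := by
        simp only [hK]
        rw [h2]
      rw [← h3]
      exact h1)
  have hprod : ∏ t ∈ Finset.range (2 * s), K t = (Q : ℝ) * (PC * (X : ℝ) ^ (((2 * s - 1 : ℕ) : ℝ) * e1) *
      (Q : ℝ) ^ (∑ t ∈ Finset.range (2 * s - 1),
        (max 0 (1 - ((((t + 2) / 2 : ℕ) : ℝ)) / (q : ℝ))))) := by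
    obtain ⟨n, hn⟩ : ∃ n : ℕ, n = 2 * s - 1 := ⟨_, rfl⟩
    have h2s : 2 * s = n + 1 := by omega
    rw [hPC, ← hn, h2s, Finset.prod_range_succ']
    simp only [hK]
    rw [Finset.prod_mul_distrib, Finset.prod_mul_distrib, Real.rpow_sum_of_pos hQ0, Finset.prod_const,
      Finset.card_range, ← Real.rpow_natCast ((X : ℝ) ^ e1) n, ← Real.rpow_mul hX0.le,
      mul_comm e1 (n : ℝ)]
    ring
  have hsum := Pool.Agent.N255.LV.sum_main q (2 * s - 1) hq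
  have hexpX : (((2 * s - 1 : ℕ) : ℝ)) * e1 ≤ ε := by
    have h2 : (((2 * s - 1 : ℕ) : ℝ)) ≤ 2 * s + 1 := by
      have : 2 * s - 1 ≤ 2 * s + 1 := by omega
      exact_mod_cast this
    calc (((2 * s - 1 : ℕ) : ℝ)) * e1 ≤ (2 * s + 1) * e1 :=
          mul_le_mul_of_nonneg_right h2 he1pos.le
      _ = ε := by rw [he1]; field_simp
  have hWn := W_nilA q X Q s C0 hd hds hq hX hQ R hR
  set v : ℝ := ((d : ℝ) * s - (d : ℝ) * (d - 1) / 2) / q with hv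
  set u : ℝ := (1 - 1 / (q : ℝ)) * ((d : ℝ) - 1) with hu
  have hWn' : W [] ≤ (((3 * C0 : ℝ) ^ d) ^ (1 / (q : ℝ)) + 1) * ((X : ℝ) ^ v * (Q : ℝ) ^ u) := by
    refine le_trans hWn ?_
    apply mul_le_mul_of_nonneg_right (by linarith) (by positivity)
  calc ((seqs X (LiveA d R A) (2 * s)).card : ℝ)
      ≤ (∏ t ∈ Finset.range (2 * s), K t) * W [] := htree
    _ = PC * ((X : ℝ) ^ (((2 * s - 1 : ℕ) : ℝ) * e1) * (Q : ℝ) ^ ((1 : ℝ) + ∑ t ∈ Finset.range (2 * s - 1),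
        (max 0 (1 - ((((t + 2) / 2 : ℕ) : ℝ)) / (q : ℝ))))) * W [] := by
        rw [hprod, Real.rpow_add hQ0, Real.rpow_one]
        ring
    _ ≤ PC * ((X : ℝ) ^ ε * (Q : ℝ) ^ (q : ℝ)) *
        ((((3 * C0 : ℝ) ^ d) ^ (1 / (q : ℝ)) + 1) * ((X : ℝ) ^ v * (Q : ℝ) ^ u)) := by
        apply mul_le_mul _ hWn' (by linarith) (by positivity)
        apply mul_le_mul_of_nonneg_left _ hPCpos.le
        apply mul_le_mul
        · exact Real.rpow_le_rpow_of_exponent_le hX' hexpX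
        · exact Real.rpow_le_rpow_of_exponent_le hQ' hsum
        · positivity
        · positivity
    _ = PC * (((3 * C0 : ℝ) ^ d) ^ (1 / (q : ℝ)) + 1) *
        ((X : ℝ) ^ v * (X : ℝ) ^ ε) * ((Q : ℝ) ^ (q : ℝ) * (Q : ℝ) ^ u) := by ring
    _ = _ := by
        rw [← Real.rpow_add hX0, ← Real.rpow_add hQ0]

end Pool.Agent.Run7.h777.VA
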