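import Pool.Agent.Run7.h777.VA.Red

/-!
# Vinogradov's system over arbitrary sets: the theorems for sets of natural numbers
-/

set_option autoImplicit false

namespace Pool.Agent.Run7.h777.VA

open Finset

/-- twice the exponent of the number of the polynomials, divided by two -/
noncomputable def vol (s k : ℝ) : ℝ := (s - k) * (s + k + 1) / 2

theorem na_q (s k q : ℕ) (hks : k < s) (hq : 1 ≤ q) (ε : ℝ) (hε : 0 < ε) :
    ∃ C : ℝ, 0 ≤ C ∧ ∀ N : ℕ, 1 ≤ N → ∀ A : Finset ℕ, A.Nonempty → (∀ z ∈ A, 1 ≤ z ∧ z ≤ N) →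
      ((NA s k A).card : ℝ) ≤ C * (N : ℝ) ^ (vol s k / q + ε) *
        (A.card : ℝ) ^ ((q : ℝ) + (1 - 1 / (q : ℝ)) * ((s : ℝ) - k - 1)) := by
  classical
  obtain ⟨C1, hC1, h1⟩ := redA s k
  have hq0 : (0 : ℝ) < q := by exact_mod_cast hq
  have hex : ∀ t : ℕ, ∃ C : ℝ, 0 < C ∧ (t ∈ Finset.Ioc k s → ∀ N : ℕ, 1 ≤ N → ∀ A : Finset ℕ,
      A.Nonempty → (∀ z ∈ A, 1 ≤ z ∧ z ≤ N) → ((DA t k A).card : ℝ) ≤
      C * (N : ℝ) ^ (vol t k / q + ε) *
        (A.card : ℝ) ^ ((q : ℝ) + (1 - 1 / (q : ℝ)) * ((t : ℝ) - k - 1))) := by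
    intro t
    by_cases ht : t ∈ Finset.Ioc k s
    · have ht' := Finset.mem_Ioc.1 ht
      obtain ⟨d, rfl⟩ : ∃ d, t = k + d := ⟨t - k, by omega⟩
      obtain ⟨C, hC, h⟩ := da_q k d q (by omega) hq ε hε
      refine ⟨C, hC, fun _ N hN A hA hAN => (h N hN A hA hAN).trans (le_of_eq ?_)⟩
      have e1 : ((d : ℝ) * ((k : ℝ) + d) - (d : ℝ) * (d - 1) / 2) = vol ((k + d : ℕ) : ℝ) k := by
        unfold vol
        push_cast
        ring
      have e2 : (((k + d : ℕ) : ℝ) - k - 1) = (d : ℝ) - 1 := by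
        push_cast
        ring
      rw [e1, e2]
    · exact ⟨1, one_pos, fun h => absurd h ht⟩
  choose C2 hC2 h2 using hex
  refine ⟨C1 * ∑ t ∈ Finset.Ioc k s, C2 t,
    mul_nonneg hC1.le (Finset.sum_nonneg fun t _ => (hC2 t).le), ?_⟩
  intro N hN A hA hAN
  have hN1 : (1 : ℝ) ≤ N := by exact_mod_cast hN
  have hN0 : (0 : ℝ) < N := by linarith
  have hQ : 1 ≤ A.card := Finset.card_pos.2 hA
  have hQ1 : (1 : ℝ) ≤ A.card := by exact_mod_cast hQ
  have hQ0 : (0 : ℝ) < A.card := by linarith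
  have hQN : (A.card : ℝ) ≤ N := by
    have h3 : A ⊆ Finset.Icc 1 N := fun z hz => Finset.mem_Icc.2 (hAN z hz)
    have h4 := Finset.card_le_card h3
    rw [Nat.card_Icc, Nat.add_sub_cancel] at h4
    exact_mod_cast h4
  refine (h1 A).trans ?_
  rw [mul_assoc C1, mul_assoc C1]
  apply mul_le_mul_of_nonneg_left _ hC1.le
  rw [Finset.sum_mul, Finset.sum_mul]
  apply Finset.sum_le_sum
  intro t ht
  have ht' := Finset.mem_Ioc.1 ht
  have hd := h2 t ht N hN A hA hAN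
  have hts : (t : ℝ) ≤ s := by exact_mod_cast ht'.2
  have hkt : (k : ℝ) + 1 ≤ t := by exact_mod_cast ht'.1
  have hk0 : (0 : ℝ) ≤ k := Nat.cast_nonneg k
  have hvol : ((s : ℝ) - t) / q ≤ (vol s k - vol t k) / q := by
    apply div_le_div_of_nonneg_right _ hq0.le
    unfold vol
    nlinarith
  have e0 : (A.card : ℝ) ^ (s - t) = (A.card : ℝ) ^ ((s : ℝ) - t) := by
    rw [← Real.rpow_natCast, Nat.cast_sub ht'.2]
  have hkey : (A.card : ℝ) ^ (((s : ℝ) - t) / q) ≤ (N : ℝ) ^ ((vol s k - vol t k) / q) := by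
    calc (A.card : ℝ) ^ (((s : ℝ) - t) / q) ≤ (N : ℝ) ^ (((s : ℝ) - t) / q) :=
          Real.rpow_le_rpow hQ0.le hQN (div_nonneg (by linarith) hq0.le)
      _ ≤ _ := Real.rpow_le_rpow_of_exponent_le hN1 hvol
  calc (A.card : ℝ) ^ (s - t) * ((DA t k A).card : ℝ)
      ≤ (A.card : ℝ) ^ ((s : ℝ) - t) * (C2 t * (N : ℝ) ^ (vol t k / q + ε) *
        (A.card : ℝ) ^ ((q : ℝ) + (1 - 1 / (q : ℝ)) * ((t : ℝ) - k - 1))) := by
        rw [e0]
        exact mul_le_mul_of_nonneg_left hd (by positivity)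
    _ = C2 t * (N : ℝ) ^ (vol t k / q + ε) * ((A.card : ℝ) ^ (((s : ℝ) - t) / q) *
        (A.card : ℝ) ^ ((q : ℝ) + (1 - 1 / (q : ℝ)) * ((s : ℝ) - k - 1))) := by
        rw [← Real.rpow_add hQ0]
        rw [show (A.card : ℝ) ^ ((s : ℝ) - t) * (C2 t * (N : ℝ) ^ (vol t k / q + ε) *
          (A.card : ℝ) ^ ((q : ℝ) + (1 - 1 / (q : ℝ)) * ((t : ℝ) - k - 1))) =
          C2 t * (N : ℝ) ^ (vol t k / q + ε) * ((A.card : ℝ) ^ ((s : ℝ) - t) *
          (A.card : ℝ) ^ ((q : ℝ) + (1 - 1 / (q : ℝ)) * ((t : ℝ) - k - 1))) by ring,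
          ← Real.rpow_add hQ0]
        have e : ((s : ℝ) - t) + ((q : ℝ) + (1 - 1 / (q : ℝ)) * ((t : ℝ) - k - 1)) =
            ((s : ℝ) - t) / q + ((q : ℝ) + (1 - 1 / (q : ℝ)) * ((s : ℝ) - k - 1)) := by
          field_simp
          ring
        rw [e]
    _ ≤ C2 t * (N : ℝ) ^ (vol t k / q + ε) * ((N : ℝ) ^ ((vol s k - vol t k) / q) *
        (A.card : ℝ) ^ ((q : ℝ) + (1 - 1 / (q : ℝ)) * ((s : ℝ) - k - 1))) := by
        have := hC2 t
        apply mul_le_mul_of_nonneg_left _ (by positivity)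
        exact mul_le_mul_of_nonneg_right hkey (by positivity)
    _ = C2 t * ((N : ℝ) ^ (vol t k / q + ε) * (N : ℝ) ^ ((vol s k - vol t k) / q)) *
        (A.card : ℝ) ^ ((q : ℝ) + (1 - 1 / (q : ℝ)) * ((s : ℝ) - k - 1)) := by ring
    _ = _ := by
        rw [← Real.rpow_add hN0, mul_assoc]
        have e : vol t k / (q : ℝ) + ε + (vol s k - vol t k) / q = vol s k / q + ε := by
          ring
        rw [e, ← mul_assoc]

/-- sets with at least `N ^ α` elements -/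
theorem na_alpha (s k : ℕ) (hks : k < s) (α : ℝ) (hα : 0 < α) (hα1 : α ≤ 1) (c : ℝ)
    (hc : 0 < c) (h : 2 * ((s : ℝ) - k) * (s + k + 1) < α * (c ^ 2 + 4 * (s - k) - 5)) :
    ∃ C : ℝ, 0 ≤ C ∧ ∀ N : ℕ, 1 ≤ N → ∀ A : Finset ℕ, (∀ z ∈ A, 1 ≤ z ∧ z ≤ N) →
      (N : ℝ) ^ α ≤ A.card →
      ((NA s k A).card : ℝ) ≤ C * (A.card : ℝ) ^ (c + ((s : ℝ) - k - 1)) := by
  have hks' : (k : ℝ) + 1 ≤ s := by exact_mod_cast hks
  have hk0 : (0 : ℝ) ≤ k := Nat.cast_nonneg k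
  set B : ℝ := vol s k / α - ((s : ℝ) - k - 1) with hB
  have hv : (s : ℝ) - k ≤ vol s k := by
    unfold vol
    nlinarith
  have hv0 : 0 < vol s k := by linarith
  have hvα : vol s k ≤ vol s k / α := by
    rw [le_div_iff₀ hα]
    nlinarith
  have hB0 : 0 < B := by
    rw [hB]
    linarith
  obtain ⟨q, hq, hqB⟩ := Pool.Agent.N541.LV.exists_q B hB0
  have hlt : Real.sqrt (4 * B + 1) < c := by
    rw [Real.sqrt_lt' hc]
    have h1 : 4 * vol s k < α * (c ^ 2 + 4 * (s - k) - 5) := by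
      unfold vol
      linarith
    have h2 : 4 * (vol s k / α) < c ^ 2 + 4 * (s - k) - 5 := by
      rw [← mul_div_assoc, div_lt_iff₀ hα]
      linarith
    rw [hB]
    linarith
  set ε : ℝ := α * (c - Real.sqrt (4 * B + 1)) with hε
  have hε0 : 0 < ε := mul_pos hα (by linarith)
  obtain ⟨C, hC, hmain⟩ := na_q s k q hks hq ε hε0
  refine ⟨C, hC, fun N hN A hAN hNA => ?_⟩
  have hq0 : (0 : ℝ) < q := by exact_mod_cast hq
  have hN1 : (1 : ℝ) ≤ N := by exact_mod_cast hN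
  have hN0 : (0 : ℝ) < N := by linarith
  have hQ1 : (1 : ℝ) ≤ A.card := (Real.one_le_rpow hN1 hα.le).trans hNA
  have hQ0 : (0 : ℝ) < A.card := by linarith
  have hA : A.Nonempty := by
    rw [← Finset.card_pos]
    exact_mod_cast hQ0
  have h1 := hmain N hN A hA hAN
  have hNQ : (N : ℝ) ≤ (A.card : ℝ) ^ (1 / α) := by
    have h2 := Real.rpow_le_rpow (by positivity) hNA (by positivity : 0 ≤ 1 / α)
    rwa [← Real.rpow_mul hN0.le, mul_one_div_cancel hα.ne', Real.rpow_one] at h2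
  have h3 : (N : ℝ) ^ (vol s k / q + ε) ≤ (A.card : ℝ) ^ ((1 / α) * (vol s k / q + ε)) := by
    rw [Real.rpow_mul hQ0.le]
    exact Real.rpow_le_rpow hN0.le hNQ (by positivity)
  calc ((NA s k A).card : ℝ) ≤ C * (N : ℝ) ^ (vol s k / q + ε) *
        (A.card : ℝ) ^ ((q : ℝ) + (1 - 1 / (q : ℝ)) * ((s : ℝ) - k - 1)) := h1
    _ ≤ C * (A.card : ℝ) ^ ((1 / α) * (vol s k / q + ε)) *
        (A.card : ℝ) ^ ((q : ℝ) + (1 - 1 / (q : ℝ)) * ((s : ℝ) - k - 1)) := by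
        apply mul_le_mul_of_nonneg_right _ (by positivity)
        exact mul_le_mul_of_nonneg_left h3 hC
    _ = C * (A.card : ℝ) ^ ((1 / α) * (vol s k / q + ε) +
        ((q : ℝ) + (1 - 1 / (q : ℝ)) * ((s : ℝ) - k - 1))) := by
        rw [mul_assoc, ← Real.rpow_add hQ0]
    _ ≤ _ := by
        apply mul_le_mul_of_nonneg_left _ hC
        apply Real.rpow_le_rpow_of_exponent_le hQ1
        have e1 : (1 / α) * (vol s k / q + ε) + ((q : ℝ) + (1 - 1 / (q : ℝ)) * ((s : ℝ) - k - 1)) =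
            (q + B / q) + (c - Real.sqrt (4 * B + 1)) + ((s : ℝ) - k - 1) := by
          have e2 : (1 / α) * ε = c - Real.sqrt (4 * B + 1) := by
            rw [hε]
            field_simp
          have e3 : B / q = (1 / α) * (vol s k / q) - (1 / (q : ℝ)) * ((s : ℝ) - k - 1) := by
            rw [hB]
            ring
          rw [mul_add, e2, e3]
          ring
        rw [e1]
        linarith

open scoped Classical in
lemma split_SA (s k : ℕ) (A : Finset ℕ) : (SA s k A).card = (NA s k A).card +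
      (((Fintype.piFinset fun _ : Fin s => A) ×ˢ (Fintype.piFinset fun _ : Fin s => A)).filter
      (fun p : (Fin s → ℕ) × (Fin s → ℕ) => ∃ σ : Equiv.Perm (Fin s), p.2 = p.1 ∘ σ)).card := by
  have e1 : ((Fintype.piFinset fun _ : Fin s => A) ×ˢ
      (Fintype.piFinset fun _ : Fin s => A)).filter
    (fun p : (Fin s → ℕ) × (Fin s → ℕ) => ∃ σ : Equiv.Perm (Fin s), p.2 = p.1 ∘ σ) =
      (SA s k A).filter (fun p => ∃ σ : Equiv.Perm (Fin s), p.2 = p.1 ∘ σ) := by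
    ext p
    simp only [SA, Finset.mem_filter]
    constructor
    · rintro ⟨hp, σ, hσ⟩
      refine ⟨⟨hp, fun j => ?_⟩, σ, hσ⟩
      rw [hσ]
      exact (Equiv.sum_comp σ (fun i => p.1 i ^ (j.val + 1))).symm
    · rintro ⟨⟨hp, -⟩, hσ⟩
      exact ⟨hp, hσ⟩
  rw [e1, NA, add_comm]
  convert (Finset.card_filter_add_card_filter_not (s := SA s k A)
    (fun p => ∃ σ : Equiv.Perm (Fin s), p.2 = p.1 ∘ σ)).symm

open scoped Classical in
theorem diagN (s : ℕ) (hs : 1 ≤ s) (A : Finset ℕ) (hA : A.Nonempty) :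
  |((((Fintype.piFinset fun _ : Fin s => A) ×ˢ (Fintype.piFinset fun _ : Fin s => A)).filter
    (fun p : (Fin s → ℕ) × (Fin s → ℕ) => ∃ σ : Equiv.Perm (Fin s), p.2 = p.1 ∘ σ)).card : ℝ)
      - (s.factorial : ℝ) * (A.card : ℝ) ^ s| ≤
      (s.factorial : ℝ) * (s : ℝ) ^ 2 * (A.card : ℝ) ^ (s - 1) := by
  convert diagA s hs A hA

theorem asymA (s k : ℕ) (hks : k < s) (α : ℝ) (hα : 0 < α) (hα1 : α ≤ 1)
    (h : 2 * ((s : ℝ) - k) * (s + k + 1) < α * ((k : ℝ) ^ 2 + 4 * (s - k) - 5)) :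
    ∃ C : ℝ, ∀ N : ℕ, 1 ≤ N → ∀ A : Finset ℕ, (∀ z ∈ A, 1 ≤ z ∧ z ≤ N) →
      (N : ℝ) ^ α ≤ A.card →
      |((SA s k A).card : ℝ) - (s.factorial : ℝ) * (A.card : ℝ) ^ s| ≤
        C * (A.card : ℝ) ^ (s - 1) := by
  classical
  have hks' : (k : ℝ) + 1 ≤ s := by exact_mod_cast hks
  have hk : 0 < (k : ℝ) := by
    rcases Nat.eq_zero_or_pos k with h0 | h0
    · exfalso
      subst h0
      simp only [Nat.cast_zero] at h hks'
      nlinarith
    · exact_mod_cast h0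
  obtain ⟨C3, hC3, h6⟩ := na_alpha s k hks α hα hα1 k hk h
  refine ⟨C3 + (s.factorial : ℝ) * (s : ℝ) ^ 2, fun N hN A hAN hNA => ?_⟩
  have hN1 : (1 : ℝ) ≤ N := by exact_mod_cast hN
  have hQ1 : (1 : ℝ) ≤ A.card := (Real.one_le_rpow hN1 hα.le).trans hNA
  have hA : A.Nonempty := by
    rw [← Finset.card_pos]
    have : (0 : ℝ) < A.card := by linarith
    exact_mod_cast this
  have h5 := diagN s (by omega) A hA
  have h6' := h6 N hN A hAN hNA
  have he : (k : ℝ) + ((s : ℝ) - k - 1) = ((s - 1 : ℕ) : ℝ) := by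
    rw [Nat.cast_sub (by omega)]
    push_cast
    ring
  rw [he, Real.rpow_natCast] at h6'
  rw [split_SA s k A]
  push_cast
  have h7 : (0 : ℝ) ≤ ((NA s k A).card : ℝ) := by positivity
  have h8 : 0 ≤ C3 * (A.card : ℝ) ^ (s - 1) := mul_nonneg hC3 (by positivity)
  rw [abs_le] at h5 ⊢
  rw [add_mul]
  constructor
  · linarith [h5.1, h5.2]
  · linarith [h5.1, h5.2]

theorem upperA (s k : ℕ) (hks : k < s) (α : ℝ) (hα : 0 < α) (hα1 : α ≤ 1)
    (h : 2 * ((s : ℝ) - k) * (s + k + 1) < α * (((k : ℝ) + 1) ^ 2 + 4 * (s - k) - 5)) :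
    ∃ C : ℝ, ∀ N : ℕ, 1 ≤ N → ∀ A : Finset ℕ, (∀ z ∈ A, 1 ≤ z ∧ z ≤ N) →
      (N : ℝ) ^ α ≤ A.card → ((SA s k A).card : ℝ) ≤ C * (A.card : ℝ) ^ s := by
  classical
  obtain ⟨C3, hC3, h6⟩ := na_alpha s k hks α hα hα1 (k + 1) (by positivity) h
  refine ⟨C3 + ((s.factorial : ℝ) + (s.factorial : ℝ) * (s : ℝ) ^ 2), fun N hN A hAN hNA => ?_⟩
  have hN1 : (1 : ℝ) ≤ N := by exact_mod_cast hN
  have hQ1 : (1 : ℝ) ≤ A.card := (Real.one_le_rpow hN1 hα.le).trans hNA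
  have hA : A.Nonempty := by
    rw [← Finset.card_pos]
    have : (0 : ℝ) < A.card := by linarith
    exact_mod_cast this
  have h5 := diagN s (by omega) A hA
  have h6' := h6 N hN A hAN hNA
  have he : (k : ℝ) + 1 + ((s : ℝ) - k - 1) = (s : ℝ) := by ring
  rw [he, Real.rpow_natCast] at h6'
  rw [split_SA s k A]
  push_cast
  have h7 : (A.card : ℝ) ^ (s - 1) ≤ (A.card : ℝ) ^ s := pow_le_pow_right₀ hQ1 (by omega)
  have h8 : (s.factorial : ℝ) * (s : ℝ) ^ 2 * (A.card : ℝ) ^ (s - 1) ≤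
      (s.factorial : ℝ) * (s : ℝ) ^ 2 * (A.card : ℝ) ^ s :=
    mul_le_mul_of_nonneg_left h7 (by positivity)
  rw [abs_le] at h5
  rw [add_mul, add_mul]
  linarith [h5.1, h5.2]

end Pool.Agent.Run7.h777.VA
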