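import Pool.Agent.Run7.h777.VA.Seq
import Pool.Agent.W156.PV_RED
import Pool.Agent.W346.PV.Diag
import Pool.Agent.W346.PV.Newt

/-!
# Vinogradov's system over arbitrary sets: reduction to solutions without common entries, and the
diagonal solutions
-/

set_option autoImplicit false

namespace Pool.Agent.Run7.h777.VA

open Finset Polynomial Pool.Agent.W89.VP Pool.Agent.W156.PVRED

lemma coverA (hN : NEWTStm) (s k : ℕ) (A : Finset ℕ) :
    NA s k A ⊆ (Finset.Ioc k s).biUnion (fun t =>
      (((Finset.univ : Finset ((Fin t ⊕ Fin (s - t) ≃ Fin s) × (Fin t ⊕ Fin (s - t) ≃ Fin s))) ×ˢ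
        ((Fintype.piFinset fun _ : Fin (s - t) => A) ×ˢ DA t k A)).image (glue t))) := by
  classical
  rintro ⟨x, y⟩ hxy
  simp only [NA, SA, Finset.mem_filter, Finset.mem_product, Fintype.mem_piFinset] at hxy
  obtain ⟨⟨⟨hx, hy⟩, hsum⟩, hnd⟩ := hxy
  obtain ⟨t, r, htr, σ, τ, hm, hd⟩ := matching x y
  obtain rfl : r = s - t := by omega
  have hsum' : ∀ j : Fin k, ∑ i : Fin t, x (σ (Sum.inl i)) ^ (j.val + 1)
      = ∑ i : Fin t, y (τ (Sum.inl i)) ^ (j.val + 1) := by
    intro j
    have h1 := hsum j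
    rw [sum_split σ, sum_split τ] at h1
    have h2 : ∑ i, x (σ (Sum.inr i)) ^ (j.val + 1) = ∑ i, y (τ (Sum.inr i)) ^ (j.val + 1) :=
      Finset.sum_congr rfl (fun i _ => by rw [hm])
    omega
  have ht0 : t ≠ 0 := by
    rintro rfl
    apply hnd
    refine ⟨τ.symm.trans σ, ?_⟩
    funext j
    obtain ⟨w, rfl⟩ := τ.surjective j
    rcases w with w | w
    · exact w.elim0
    · simp [hm]
  have htk : k < t := by
    by_contra hcon
    push Not at hcon
    have h1 := hN t k (fun i => x (σ (Sum.inl i))) (fun i => y (τ (Sum.inl i))) hsum'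
    rw [Nat.sub_eq_zero_of_le hcon, Nat.cast_zero, Nat.WithBot.lt_zero_iff,
      Polynomial.degree_eq_bot] at h1
    have i0 : Fin t := ⟨0, Nat.pos_of_ne_zero ht0⟩
    have h2 := congrArg (Polynomial.eval ((x (σ (Sum.inl i0)) : ℕ) : ℤ)) h1
    rw [Polynomial.eval_sub, Polynomial.eval_prod, Polynomial.eval_prod, Polynomial.eval_zero,
      Finset.prod_eq_zero (Finset.mem_univ i0) (by simp), zero_sub, neg_eq_zero,
      Finset.prod_eq_zero_iff] at h2
    obtain ⟨j, -, hj⟩ := h2
    simp only [Polynomial.eval_sub, Polynomial.eval_X, Polynomial.eval_C] at hj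
    apply hd i0 j
    have : ((x (σ (Sum.inl i0)) : ℕ) : ℤ) = (y (τ (Sum.inl j)) : ℕ) := by linarith
    exact_mod_cast this
  simp only [Finset.mem_biUnion, Finset.mem_image, Finset.mem_product, Finset.mem_univ, true_and,
    Finset.mem_Ioc]
  refine ⟨t, ⟨htk, by omega⟩, ⟨(σ, τ), (fun i => x (σ (Sum.inr i))),
    (fun i => x (σ (Sum.inl i))), (fun i => y (τ (Sum.inl i)))⟩, ⟨?_, ?_⟩, ?_⟩
  · rw [Fintype.mem_piFinset]
    intro i
    exact hx _
  · simp only [DA, SA, Finset.mem_filter, Finset.mem_product, Fintype.mem_piFinset]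
    exact ⟨⟨⟨fun i => hx _, fun i => hy _⟩, hsum'⟩, hd⟩
  · unfold glue
    refine Prod.ext ?_ ?_
    · funext j
      obtain ⟨w, rfl⟩ := σ.surjective j
      rcases w with w | w <;> simp
    · funext j
      obtain ⟨w, rfl⟩ := τ.surjective j
      rcases w with w | w <;> simp [hm]

theorem redA (s k : ℕ) : ∃ C : ℝ, 0 < C ∧ ∀ A : Finset ℕ,
    ((NA s k A).card : ℝ) ≤ C * ∑ t ∈ Finset.Ioc k s, (A.card : ℝ) ^ (s - t) * ((DA t k A).card : ℝ) := by
  classical
  let M : ℕ → ℕ := fun t => Fintype.card ((Fin t ⊕ Fin (s - t) ≃ Fin s) × (Fin t ⊕ Fin (s - t) ≃ Fin s))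
  refine ⟨((∑ t ∈ Finset.range (s + 1), M t : ℕ) : ℝ) + 1, by positivity, ?_⟩
  intro A
  have h1 : (NA s k A).card ≤ ∑ t ∈ Finset.Ioc k s, M t * (A.card ^ (s - t) * (DA t k A).card) := by
    refine (Finset.card_le_card (coverA Pool.Agent.W346.PV.Newt.main s k A)).trans ?_
    refine Finset.card_biUnion_le.trans ?_
    apply Finset.sum_le_sum
    intro t _
    refine Finset.card_image_le.trans ?_
    rw [Finset.card_product, Finset.card_product, Fintype.card_piFinset]
    simp only [Finset.prod_const, Finset.card_univ, Fintype.card_fin]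
    exact le_rfl
  have h2 : ((NA s k A).card : ℝ) ≤ ∑ t ∈ Finset.Ioc k s,
      (M t : ℝ) * ((A.card : ℝ) ^ (s - t) * ((DA t k A).card : ℝ)) := by
    exact_mod_cast h1
  refine h2.trans ?_
  rw [Finset.mul_sum]
  apply Finset.sum_le_sum
  intro t ht
  apply mul_le_mul_of_nonneg_right _ (by positivity)
  have h3 : M t ≤ ∑ t ∈ Finset.range (s + 1), M t := by
    apply Finset.single_le_sum (f := M) (fun i _ => Nat.zero_le _)
    rw [Finset.mem_range]
    have := (Finset.mem_Ioc.mp ht).2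
    omega
  have h4 : (M t : ℝ) ≤ ((∑ t ∈ Finset.range (s + 1), M t : ℕ) : ℝ) := by exact_mod_cast h3
  linarith

open scoped Classical in
/-- the number of diagonal pairs -/
theorem diagA {ι : Type} (s : ℕ) (hs : 1 ≤ s) (A : Finset ι) (hA : A.Nonempty) :
  |((((Fintype.piFinset fun _ : Fin s => A) ×ˢ (Fintype.piFinset fun _ : Fin s => A)).filter
    (fun p : (Fin s → ι) × (Fin s → ι) => ∃ σ : Equiv.Perm (Fin s), p.2 = p.1 ∘ σ)).card : ℝ)
      - (s.factorial : ℝ) * (A.card : ℝ) ^ s| ≤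
      (s.factorial : ℝ) * (s : ℝ) ^ 2 * (A.card : ℝ) ^ (s - 1) := by
  set P : Finset (Fin s → ι) := Fintype.piFinset fun _ : Fin s => A with hP
  have hPc : P.card = A.card ^ s := by
    rw [hP, Fintype.card_piFinset_const]
  set D := (P ×ˢ P).filter
    (fun p : (Fin s → ι) × (Fin s → ι) => ∃ σ : Equiv.Perm (Fin s), p.2 = p.1 ∘ σ) with hD
  -- upper bound
  have hup : D.card ≤ s.factorial * A.card ^ s := by
    have h1 : D ⊆ ((univ : Finset (Equiv.Perm (Fin s))) ×ˢ P).image
        (fun q => (q.2, q.2 ∘ q.1)) := by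
      intro p hp
      rw [hD, mem_filter, mem_product] at hp
      obtain ⟨⟨h2, _⟩, σ, h3⟩ := hp
      rw [mem_image]
      exact ⟨(σ, p.1), mem_product.2 ⟨mem_univ _, h2⟩, Prod.ext rfl h3.symm⟩
    refine (card_le_card h1).trans (card_image_le.trans ?_)
    rw [card_product, card_univ, Fintype.card_perm, Fintype.card_fin, hPc]
  -- lower bound
  have hlow : s.factorial * A.card.descFactorial s ≤ D.card := by
    set g : Equiv.Perm (Fin s) × (Fin s ↪ A) → (Fin s → ι) × (Fin s → ι) :=
      fun q => (fun i => (q.2 i : ι), fun i => (q.2 (q.1 i) : ι)) with hg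
    have hginj : Function.Injective g := by
      rintro ⟨σ, e⟩ ⟨σ', e'⟩ h
      have h1 : (fun i => (e i : ι)) = fun i => (e' i : ι) := congrArg Prod.fst h
      have h2 : (fun i => (e (σ i) : ι)) = fun i => (e' (σ' i) : ι) := congrArg Prod.snd h
      have h3 : e = e' := by
        ext i
        exact congrFun h1 i
      subst h3
      have h4 : σ = σ' := by
        ext i
        have := congrFun h2 i
        have h5 : e (σ i) = e (σ' i) := Subtype.ext this
        exact congrArg Fin.val (e.injective h5)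
      rw [h4]
    have h1 : (univ.image g) ⊆ D := by
      intro p hp
      rw [mem_image] at hp
      obtain ⟨⟨σ, e⟩, _, rfl⟩ := hp
      rw [hD, mem_filter, mem_product, hP, Fintype.mem_piFinset, Fintype.mem_piFinset]
      exact ⟨⟨fun i => (e i).2, fun i => (e (σ i)).2⟩, σ, rfl⟩
    have h2 := card_le_card h1
    rw [card_image_of_injective _ hginj, card_univ, Fintype.card_prod, Fintype.card_perm,
      Fintype.card_embedding_eq, Fintype.card_fin, Fintype.card_coe] at h2
    exact h2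
  have hup' : (D.card : ℝ) ≤ (s.factorial : ℝ) * (A.card : ℝ) ^ s := by exact_mod_cast hup
  have hlow' : (s.factorial : ℝ) * (A.card.descFactorial s : ℝ) ≤ (D.card : ℝ) := by exact_mod_cast hlow
  have hd := Pool.Agent.W346.PV.Diag.desc_lower s A.card (Finset.card_pos.2 hA)
  have hf : (0 : ℝ) ≤ s.factorial := Nat.cast_nonneg _
  have hn : (0 : ℝ) ≤ (A.card : ℝ) ^ (s - 1) := by positivity
  rw [abs_le]
  constructor
  · have := mul_le_mul_of_nonneg_left hd hf
    nlinarith
  · have : 0 ≤ (s.factorial : ℝ) * (s : ℝ) ^ 2 * (A.card : ℝ) ^ (s - 1) := by positivity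
    linarith

end Pool.Agent.Run7.h777.VA
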