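import Pool.Agent.Run7.h777.VA.Core
import Pool.Agent.N712.LV.Seq

/-!
# Vinogradov's system over arbitrary sets: solutions without common entries
-/

set_option autoImplicit false

namespace Pool.Agent.Run7.h777.VA

open Finset Pool.Agent.N541.LV Pool.Agent.N712.LV

theorem FF_mem {A : Finset ℕ} {X Y : ℕ → ℕ} (i : ℕ) (hX : ∀ j < i, X j ∈ A) (hY : ∀ j < i, Y j ∈ A) :
    ∀ z ∈ FF X Y i, z ∈ A := by
  induction i with
  | zero =>
    intro z hz
    exact absurd hz List.not_mem_nil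
  | succ i ih =>
    intro z hz
    rcases List.mem_cons.1 hz with rfl | hz
    · exact hY i (by omega)
    rcases List.mem_cons.1 hz with rfl | hz
    · exact hX i (by omega)
    exact ih (fun j hj => hX j (by omega)) (fun j hj => hY j (by omega)) z hz

theorem seqA (d s N : ℕ) (R : Fin d → ℕ) (A : Finset ℕ) (hAN : ∀ z ∈ A, 1 ≤ z ∧ z ≤ N)
    (T : Finset ((Fin s → ℕ) × (Fin s → ℕ)))
    (hT : ∀ p ∈ T, (∀ i, p.1 i ∈ A) ∧ (∀ i, p.2 i ∈ A) ∧ (∀ i j, p.1 i ≠ p.2 j) ∧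
      ∃ P ∈ box R, ∀ t : ℤ, ev P t = ∏ i, (t - (p.1 i : ℤ)) - ∏ i, (t - (p.2 i : ℤ))) :
    T.card ≤ (seqs N (LiveA d R A) (2 * s)).card := by
  classical
  refine Finset.card_le_card_of_injOn (fun p => FF (ex p.1) (ex p.2) s) ?_ ?_
  · intro p hp
    obtain ⟨hx, hy, hxy, P, hP, hev⟩ := hT p hp
    have hxA : ∀ j < s, ex p.1 j ∈ A := by
      intro j hj
      rw [ex_lt _ hj]
      exact hx _
    have hyA : ∀ j < s, ex p.2 j ∈ A := by
      intro j hj
      rw [ex_lt _ hj]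
      exact hy _
    have key : ∀ i ≤ s, FF (ex p.1) (ex p.2) i ∈ seqs N (LiveA d R A) (2 * i) := by
      intro i hi
      induction i with
      | zero => exact mem_singleton_self _
      | succ i ih =>
        have h1 := ih (by omega)
        have hL := live hP hxy hev
        have h2 := (hL i (by omega)).2 (by omega)
        have h3 := (hL (i + 1) hi).1
        have hpt : ∀ l : List ℕ, P ∈ lat d l → P ∈ pts (lat d l) R := fun l hl =>
          mem_filter.2 ⟨hP, hl⟩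
        have hFA : ∀ z ∈ FF (ex p.1) (ex p.2) i, z ∈ A :=
          FF_mem i (fun j hj => hxA j (by omega)) (fun j hj => hyA j (by omega))
        have h4 : ex p.1 i :: FF (ex p.1) (ex p.2) i ∈ seqs N (LiveA d R A) (2 * i + 1) := by
          refine mem_step h1 (hAN _ (hxA i (by omega))).1 (hAN _ (hxA i (by omega))).2
            ⟨⟨P, hpt _ h2.1, h2.2⟩, ?_⟩
          intro z hz
          rcases List.mem_cons.1 hz with rfl | hz
          · exact hxA i (by omega)
          · exact hFA z hz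
        have h5 : ex p.2 i :: ex p.1 i :: FF (ex p.1) (ex p.2) i ∈
            seqs N (LiveA d R A) (2 * i + 1 + 1) := by
          refine mem_step h4 (hAN _ (hyA i (by omega))).1 (hAN _ (hyA i (by omega))).2
            ⟨⟨P, hpt _ h3.1, h3.2⟩, ?_⟩
          intro z hz
          exact FF_mem (i + 1) (fun j hj => hxA j (by omega)) (fun j hj => hyA j (by omega)) z hz
        exact h5
    exact key s le_rfl
  · intro p _ q _ hpq
    have h := FF_inj s hpq
    refine Prod.ext (funext fun i => ?_) (funext fun i => ?_)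
    · rw [← ex_val p.1 i, ← ex_val q.1 i]
      exact (h i i.2).1
    · rw [← ex_val p.2 i, ← ex_val q.2 i]
      exact (h i i.2).2

/-- Pairs of `s`-tuples in `A` with equal `j`-th power sums for `j = 1..k`. -/
def SA (s k : ℕ) (A : Finset ℕ) : Finset ((Fin s → ℕ) × (Fin s → ℕ)) :=
  ((Fintype.piFinset fun _ : Fin s => A) ×ˢ (Fintype.piFinset fun _ : Fin s => A)).filter
    (fun p : (Fin s → ℕ) × (Fin s → ℕ) =>
      ∀ j : Fin k, ∑ i : Fin s, p.1 i ^ (j.val + 1) = ∑ i : Fin s, p.2 i ^ (j.val + 1))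

open scoped Classical in
/-- The non-diagonal solutions. -/
noncomputable def NA (s k : ℕ) (A : Finset ℕ) : Finset ((Fin s → ℕ) × (Fin s → ℕ)) :=
  (SA s k A).filter (fun p => ¬ ∃ σ : Equiv.Perm (Fin s), p.2 = p.1 ∘ σ)

/-- The solutions in which no `x_i` equals a `y_j`. -/
def DA (s k : ℕ) (A : Finset ℕ) : Finset ((Fin s → ℕ) × (Fin s → ℕ)) :=
  (SA s k A).filter (fun p => ∀ i j, p.1 i ≠ p.2 j)

/-- disjoint solutions, any `q` -/
theorem da_q (k d q : ℕ) (hd : 1 ≤ d) (hq : 1 ≤ q) (ε : ℝ) (hε : 0 < ε) :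
    ∃ C : ℝ, 0 < C ∧ ∀ N : ℕ, 1 ≤ N → ∀ A : Finset ℕ, A.Nonempty → (∀ z ∈ A, 1 ≤ z ∧ z ≤ N) →
      ((DA (k + d) k A).card : ℝ) ≤
      C * (N : ℝ) ^ (((d : ℝ) * ((k : ℝ) + d) - (d : ℝ) * (d - 1) / 2) / q + ε) *
        (A.card : ℝ) ^ ((q : ℝ) + (1 - 1 / (q : ℝ)) * ((d : ℝ) - 1)) := by
  obtain ⟨C, hC0, h⟩ := coreA d q (k + d) (2 ^ (k + d + 1)) hd (by omega) hq ε hε
  refine ⟨C, hC0, fun N hN A hA hAN => ?_⟩
  have h1 := h N hN (fun l : Fin d => 2 ^ (k + d + 1) * N ^ (k + d - (l : ℕ)))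
    (fun l => ⟨Nat.one_le_iff_ne_zero.2 (by positivity), le_rfl⟩) A hA
  have h2 : (DA (k + d) k A).card ≤ (seqs N (LiveA d (fun l : Fin d =>
      2 ^ (k + d + 1) * N ^ (k + d - (l : ℕ))) A) (2 * (k + d))).card := by
    apply seqA d (k + d) N _ A hAN
    intro p hp
    rw [DA, Finset.mem_filter, SA, Finset.mem_filter, Finset.mem_product, Fintype.mem_piFinset,
      Fintype.mem_piFinset] at hp
    obtain ⟨⟨⟨h1, h2⟩, h3⟩, h4⟩ := hp
    exact ⟨h1, h2, h4, pol k d N p.1 p.2 hN (fun i => hAN _ (h1 i)) (fun i => hAN _ (h2 i)) h3⟩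
  have h3 : ((DA (k + d) k A).card : ℝ) ≤ ((seqs N (LiveA d (fun l : Fin d =>
      2 ^ (k + d + 1) * N ^ (k + d - (l : ℕ))) A) (2 * (k + d))).card : ℝ) := by exact_mod_cast h2
  refine h3.trans (h1.trans (le_of_eq ?_))
  push_cast
  ring_nf

end Pool.Agent.Run7.h777.VA
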