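import Pool.Agent.N541.LV.Stm
import Pool.Agent.N152.LV_STEP

/-!
# Vinogradov's system over arbitrary sets: one more variable from a set with at most `Q` elements
-/

set_option autoImplicit false

namespace Pool.Agent.Run7.h777.VA

open Finset Pool.Agent.N541.LV Pool.Agent.N152.LV

/-- Hoelder with a real exponent -/
theorem holderR (p : ℝ) (hp : 1 ≤ p) (Z : Finset ℕ) (f : ℕ → ℝ) (hf : ∀ z, 0 ≤ f z) :
    ∑ z ∈ Z, (f z) ^ (1 / p) ≤ (Z.card : ℝ) ^ (1 - 1 / p) * (∑ z ∈ Z, f z) ^ (1 / p) := by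
  have hq0 : (0 : ℝ) < p := by linarith
  have h1 := Real.rpow_sum_le_const_mul_sum_rpow_of_nonneg (s := Z) (f := fun z => (f z) ^ (1 / p)) hp
    (fun z _ => Real.rpow_nonneg (hf z) _)
  have h2 : ∀ z, ((f z) ^ (1 / p)) ^ p = f z := by
    intro z
    rw [← Real.rpow_mul (hf z), one_div, inv_mul_cancel₀ hq0.ne', Real.rpow_one]
  simp only [h2] at h1
  have hA : 0 ≤ ∑ z ∈ Z, (f z) ^ (1 / p) := Finset.sum_nonneg fun z _ => Real.rpow_nonneg (hf z) _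
  have hB : 0 ≤ ∑ z ∈ Z, f z := Finset.sum_nonneg fun z _ => hf z
  have h3 := Real.rpow_le_rpow (Real.rpow_nonneg hA _) h1 (by positivity : 0 ≤ 1 / p)
  rw [← Real.rpow_mul hA, mul_one_div_cancel hq0.ne', Real.rpow_one,
    Real.mul_rpow (by positivity) hB, ← Real.rpow_mul (by positivity)] at h3
  have e1 : (p - 1) * (1 / p) = 1 - 1 / p := by
    field_simp
  rwa [e1] at h3

/-- few `z` in a set have a small index -/
theorem costA (hCo : COSTStm) (m q K C0 : ℕ) (hm : 1 ≤ m) (hq : 1 ≤ q) (ε : ℝ) (hε : 0 < ε) :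
    ∃ C : ℝ, 0 < C ∧
  ∀ X : ℕ, 1 ≤ X → ∀ (o : Fin m → ℕ) (a : Fin m → ℕ) (Z : Finset ℕ) (g : ℕ → ℕ),
    (∀ j, 1 ≤ o j ∧ o j ≤ X) → (∀ j, 1 ≤ a j ∧ a j ≤ C0 * X ^ K) → Z ⊆ Finset.Icc 1 X →
    (∀ z ∈ Z, Mo o z ≠ 0 ∧ 0 < g z ∧ (g z : ℤ) ∣ Mo o z ∧
      ∀ j, ∀ h : ℕ, h ∣ g z → (h : ℤ) ∣ (z : ℤ) - (o j : ℤ) → h ∣ a j) →
    ∑ z ∈ Z, ((((Mo o z).natAbs / g z : ℕ) : ℝ)) ^ (-(1 / (q : ℝ))) ≤
      C * (X : ℝ) ^ ε * (Z.card : ℝ) ^ (max 0 (1 - (m : ℝ) / q)) := by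
  have hq0 : (0 : ℝ) < q := by exact_mod_cast hq
  have hm0 : (0 : ℝ) < m := by exact_mod_cast hm
  by_cases hmq : q < m
  · obtain ⟨C, hC, h⟩ := hCo m q K C0 hm hq ε hε
    refine ⟨C, hC, fun X hX o a Z g ho ha hZ hz => ?_⟩
    have hm' : (q : ℝ) < m := by exact_mod_cast hmq
    have e : max 0 (1 - (m : ℝ) / q) = 0 := by
      apply max_eq_left
      rw [sub_nonpos, le_div_iff₀ hq0]
      linarith
    have := h X hX o a Z g ho ha hZ hz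
    rw [e, zero_add] at this
    rw [e, Real.rpow_zero, mul_one]
    exact this
  · push Not at hmq
    obtain ⟨C, hC, h⟩ := hCo m m K C0 hm hm ε hε
    have hmq' : (m : ℝ) ≤ q := by exact_mod_cast hmq
    set p : ℝ := (q : ℝ) / m with hp
    have hp1 : 1 ≤ p := by
      rw [hp, le_div_iff₀ hm0]
      linarith
    have hip : 1 / p = (m : ℝ) / q := by
      rw [hp]
      field_simp
    refine ⟨C ^ (1 / p), by positivity, fun X hX o a Z g ho ha hZ hz => ?_⟩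
    have hX1 : (1 : ℝ) ≤ X := by exact_mod_cast hX
    have hX0 : (0 : ℝ) < X := by linarith
    have h1 := h X hX o a Z g ho ha hZ hz
    have h2 : max 0 (1 - (m : ℝ) / m) + ε = ε := by
      rw [div_self hm0.ne']
      simp
    rw [h2] at h1
    have h3 := holderR p hp1 Z (fun z => ((((Mo o z).natAbs / g z : ℕ) : ℝ)) ^ (-(1 / (m : ℝ))))
      (fun z => by positivity)
    have h4 : ∀ z, (((((Mo o z).natAbs / g z : ℕ) : ℝ)) ^ (-(1 / (m : ℝ)))) ^ (1 / p) =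
        ((((Mo o z).natAbs / g z : ℕ) : ℝ)) ^ (-(1 / (q : ℝ))) := by
      intro z
      rw [← Real.rpow_mul (Nat.cast_nonneg _), hip]
      congr 1
      field_simp
    simp only [h4] at h3
    refine h3.trans ?_
    have h5 : max 0 (1 - (m : ℝ) / q) = 1 - 1 / p := by
      rw [hip]
      apply max_eq_right
      rw [sub_nonneg, div_le_one hq0]
      exact hmq'
    rw [h5]
    have h6 : (∑ z ∈ Z, ((((Mo o z).natAbs / g z : ℕ) : ℝ)) ^ (-(1 / (m : ℝ)))) ^ (1 / p) ≤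
        C ^ (1 / p) * (X : ℝ) ^ ε := by
      have h7 := Real.rpow_le_rpow (Finset.sum_nonneg fun z _ => by positivity) h1
        (by positivity : 0 ≤ 1 / p)
      refine h7.trans ?_
      rw [Real.mul_rpow hC.le (by positivity), ← Real.rpow_mul hX0.le]
      apply mul_le_mul_of_nonneg_left _ (by positivity)
      apply Real.rpow_le_rpow_of_exponent_le hX1
      have : 1 / p ≤ 1 := by
        rw [div_le_one (by linarith)]
        exact hp1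
      nlinarith
    calc (Z.card : ℝ) ^ (1 - 1 / p) *
          (∑ z ∈ Z, ((((Mo o z).natAbs / g z : ℕ) : ℝ)) ^ (-(1 / (m : ℝ)))) ^ (1 / p)
        ≤ (Z.card : ℝ) ^ (1 - 1 / p) * (C ^ (1 / p) * (X : ℝ) ^ ε) :=
          mul_le_mul_of_nonneg_left h6 (by positivity)
      _ = _ := by ring

/-- **one more variable** -/
theorem stepA (hI : IDXStm) (hG : GCDStm) (hK : CONGStm) (hCo : COSTStm) (hDr : DROPStm)
    (d m q s C0 : ℕ) (hd : 1 ≤ d) (hm : 1 ≤ m) (hq : 1 ≤ q) (ε : ℝ) (hε : 0 < ε) :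
    ∃ C : ℝ, 0 < C ∧
  ∀ X : ℕ, 1 ≤ X → ∀ (R : Fin d → ℕ), (∀ l, 1 ≤ R l ∧ R l ≤ C0 * X ^ s) →
  ∀ (Λ : AddSubgroup (Fin d → ℤ)) (o : Fin m → ℕ), (∀ j, 1 ≤ o j ∧ o j ≤ X) →
  ∀ (Q : ℕ) (Z : Finset ℕ), Z.card ≤ Q → Z ⊆ Finset.Icc 1 X →
    (∀ z ∈ Z, ∃ P ∈ pts (sub Λ o z) R, ev P (z : ℤ) ≠ 0 ∧ ∀ j, ev P (o j : ℤ) ≠ 0) →
    ∑ z ∈ Z, Wt q Q (sub Λ o z) R ≤
      C * (X : ℝ) ^ ε * (Q : ℝ) ^ (max 0 (1 - (m : ℝ) / q)) * Wt q Q Λ R := by
  classical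
  obtain ⟨C1, hC1, hcost⟩ := costA hCo m q (s + d) (d * C0) hm hq ε hε
  obtain ⟨C2, hC2, hdrop⟩ := hDr d m s C0 hd hm ε hε
  have hq0 : (0 : ℝ) < q := by exact_mod_cast hq
  have hq1 : 1 / (q : ℝ) ≤ 1 := by
    rw [div_le_one hq0]
    exact_mod_cast hq
  have hqp : 0 < 1 / (q : ℝ) := by positivity
  refine ⟨((2 * (d : ℝ) + 3) ^ d) ^ (1 / (q : ℝ)) * C1 + C2 ^ (1 / (q : ℝ)), by positivity, ?_⟩
  intro X hX R hR Λ o ho Q Z hZQ hZ hP
  have hX1 : (1 : ℝ) ≤ X := by exact_mod_cast hX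
  have hX0 : (0 : ℝ) < X := by linarith
  have hWt : ∀ Λ' : AddSubgroup (Fin d → ℤ), 0 ≤ Wt q Q Λ' R := fun Λ' => by
    unfold Wt
    positivity
  rcases Z.eq_empty_or_nonempty with rfl | ⟨z0, hz0⟩
  · rw [Finset.sum_empty]
    have := hWt Λ
    positivity
  have hQ : 1 ≤ Q := le_trans (Finset.card_pos.2 ⟨z0, hz0⟩) hZQ
  have hQ1 : (1 : ℝ) ≤ Q := by exact_mod_cast hQ
  have hQ0 : (0 : ℝ) < Q := by linarith
  obtain ⟨P0, hP0, -, hP0o⟩ := hP z0 hz0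
  have hP0' : P0 ∈ pts Λ R := pts_sub_le Λ R o z0 hP0
  -- the moduli are not zero
  have hMo : ∀ z ∈ Z, Mo o z ≠ 0 := by
    intro z hz h0
    obtain ⟨P, hP1, hP2, -⟩ := hP z hz
    have h3 := (mem_pts.1 hP1).2.2
    rw [h0, zero_dvd_iff] at h3
    exact hP2 h3
  have hg0 : ∀ z : ℕ, ∃ g : ℕ, Mo o z ≠ 0 → (0 < g ∧ (g : ℤ) ∣ Mo o z ∧ (∀ P ∈ pts Λ R, (g : ℤ) ∣ ev P z) ∧
      ∃ P ∈ AddSubgroup.closure (pts Λ R : Set (Fin d → ℤ)), Mo o z ∣ ev P z - (g : ℤ)) := by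
    intro z
    by_cases h : Mo o z = 0
    · exact ⟨1, fun h' => absurd h h'⟩
    · obtain ⟨g, hg⟩ := hG d (pts Λ R) (Mo o z) z h
      exact ⟨g, fun _ => hg⟩
  choose g hg using hg0
  -- the two parts
  rw [← Finset.sum_filter_add_sum_filter_not Z (fun z => rk (sub Λ o z) R = rk Λ R)]
  rw [add_mul, add_mul, add_mul]
  refine add_le_add ?_ ?_
  · -- the first part
    have h1 := hcost X hX o (fun j => (ev P0 (o j : ℤ)).natAbs)
      (Z.filter fun z => rk (sub Λ o z) R = rk Λ R) g ho ?_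
      ((Finset.filter_subset _ _).trans hZ) ?_
    · have h2 : ∀ z ∈ Z.filter (fun z => rk (sub Λ o z) R = rk Λ R), Wt q Q (sub Λ o z) R ≤
          (((2 * (d : ℝ) + 3) ^ d) ^ (1 / (q : ℝ)) * Wt q Q Λ R) *
            ((((Mo o z).natAbs / g z : ℕ) : ℝ)) ^ (-(1 / (q : ℝ))) := by
        intro z hz
        rw [Finset.mem_filter] at hz
        obtain ⟨hzZ, hrk⟩ := hz
        obtain ⟨g1, g2, g3, g4⟩ := hg z (hMo z hzZ)
        have h3 := hI d m Λ R o z (g z) (fun l => (hR l).1) (hMo z hzZ) hrk g1 g2 g4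
        have h4 : 1 ≤ (Mo o z).natAbs / g z := by
          rw [Nat.one_le_div_iff g1]
          exact Nat.le_of_dvd (Int.natAbs_pos.2 (hMo z hzZ)) (Int.natCast_dvd.1 g2)
        obtain ⟨I, hIdef⟩ : ∃ I : ℕ, I = (Mo o z).natAbs / g z := ⟨_, rfl⟩
        rw [← hIdef] at h3 h4 ⊢
        have hI0 : (0 : ℝ) < I := by exact_mod_cast h4
        have h5 : (I : ℝ) * ((pts (sub Λ o z) R).card : ℝ) ≤ (2 * (d : ℝ) + 3) ^ d * ((pts Λ R).card : ℝ) := by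
          exact_mod_cast h3
        have h6 : ((pts (sub Λ o z) R).card : ℝ) ≤ (2 * (d : ℝ) + 3) ^ d * ((pts Λ R).card : ℝ) * (I : ℝ)⁻¹ := by
          rw [← div_eq_mul_inv, le_div_iff₀ hI0]
          linarith
        have h7 := Real.rpow_le_rpow (Nat.cast_nonneg _) h6 hqp.le
        rw [Real.mul_rpow (by positivity) (by positivity), Real.mul_rpow (by positivity) (by positivity),
          Real.inv_rpow hI0.le, ← Real.rpow_neg hI0.le] at h7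
        unfold Wt
        rw [hrk]
        have h8 : (0 : ℝ) ≤ (Q : ℝ) ^ ((1 - 1 / (q : ℝ)) * ((rk Λ R : ℝ) - 1)) := by positivity
        calc ((pts (sub Λ o z) R).card : ℝ) ^ (1 / (q : ℝ)) *
              (Q : ℝ) ^ ((1 - 1 / (q : ℝ)) * ((rk Λ R : ℝ) - 1))
            ≤ (((2 * (d : ℝ) + 3) ^ d) ^ (1 / (q : ℝ)) * ((pts Λ R).card : ℝ) ^ (1 / (q : ℝ)) *
                (I : ℝ) ^ (-(1 / (q : ℝ)))) * (Q : ℝ) ^ ((1 - 1 / (q : ℝ)) * ((rk Λ R : ℝ) - 1)) :=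
              mul_le_mul_of_nonneg_right h7 h8
          _ = _ := by ring
      refine (Finset.sum_le_sum h2).trans ?_
      rw [← Finset.mul_sum]
      have h9 : 0 ≤ ((2 * (d : ℝ) + 3) ^ d) ^ (1 / (q : ℝ)) * Wt q Q Λ R := by
        have := hWt Λ
        positivity
      have h10 : (((Z.filter fun z => rk (sub Λ o z) R = rk Λ R).card : ℕ) : ℝ) ^
          (max 0 (1 - (m : ℝ) / q)) ≤ (Q : ℝ) ^ (max 0 (1 - (m : ℝ) / q)) := by
        apply Real.rpow_le_rpow (Nat.cast_nonneg _) _ (le_max_left _ _)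
        exact_mod_cast (Finset.card_le_card (Finset.filter_subset _ _)).trans hZQ
      have h11 := h1.trans (mul_le_mul_of_nonneg_left h10 (by positivity))
      refine (mul_le_mul_of_nonneg_left h11 h9).trans (le_of_eq (by ring))
    · intro j
      refine ⟨Int.natAbs_pos.2 (hP0o j), ?_⟩
      exact ev_bound hX (fun l => (hR l).2) hP0' (ho j).2
    · intro z hz
      rw [Finset.mem_filter] at hz
      obtain ⟨hzZ, -⟩ := hz
      obtain ⟨g1, g2, g3, -⟩ := hg z (hMo z hzZ)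
      refine ⟨hMo z hzZ, g1, g2, ?_⟩
      intro j h hh1 hh2
      have h3 : (h : ℤ) ∣ ev P0 z := (Int.natCast_dvd_natCast.2 hh1).trans (g3 P0 hP0')
      have h4 : (h : ℤ) ∣ ev P0 z - ev P0 (o j) := hh2.trans (hK d P0 z (o j))
      have h5 : (h : ℤ) ∣ ev P0 (o j) := (dvd_sub_right h3).1 h4
      exact Int.natCast_dvd.1 h5
  · -- the second part
    obtain ⟨Z2, hZ2⟩ : ∃ Z2 : Finset ℕ, Z2 = Z.filter (fun z => ¬ rk (sub Λ o z) R = rk Λ R) := ⟨_, rfl⟩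
    rw [← hZ2]
    have hZ2Z : Z2 ⊆ Z := by
      rw [hZ2]
      exact Finset.filter_subset _ _
    have h1 := hdrop X hX R hR Λ o ho Z2 (hZ2Z.trans hZ) (fun z hz => hP z (hZ2Z hz))
    have h2 := holder q hq Z2 (fun z => ((pts (sub Λ o z) R).card : ℝ)) (fun z => Nat.cast_nonneg _)
    have hcard : (Z2.card : ℝ) ≤ Q := by
      exact_mod_cast (Finset.card_le_card hZ2Z).trans hZQ
    have h1q : 0 ≤ 1 - 1 / (q : ℝ) := by linarith
    have h4 : (Z2.card : ℝ) ^ (1 - 1 / (q : ℝ)) ≤ (Q : ℝ) ^ (1 - 1 / (q : ℝ)) :=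
      Real.rpow_le_rpow (Nat.cast_nonneg _) hcard h1q
    have h5 : (∑ z ∈ Z2, ((pts (sub Λ o z) R).card : ℝ)) ^ (1 / (q : ℝ)) ≤
        C2 ^ (1 / (q : ℝ)) * (X : ℝ) ^ (ε / q) * ((pts Λ R).card : ℝ) ^ (1 / (q : ℝ)) := by
      have h6 := Real.rpow_le_rpow (Finset.sum_nonneg fun z _ => Nat.cast_nonneg _) h1 hqp.le
      rw [Real.mul_rpow (by positivity) (by positivity), Real.mul_rpow (by positivity) (by positivity),
        ← Real.rpow_mul hX0.le, mul_one_div] at h6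
      exact h6
    have h6 : ∑ z ∈ Z2, ((pts (sub Λ o z) R).card : ℝ) ^ (1 / (q : ℝ)) ≤
        (Q : ℝ) ^ (1 - 1 / (q : ℝ)) *
          (C2 ^ (1 / (q : ℝ)) * (X : ℝ) ^ (ε / q) * ((pts Λ R).card : ℝ) ^ (1 / (q : ℝ))) := by
      refine h2.trans (mul_le_mul h4 h5 ?_ (by positivity))
      exact Real.rpow_nonneg (Finset.sum_nonneg fun z _ => Nat.cast_nonneg _) _
    have h7 : ∀ z ∈ Z2, Wt q Q (sub Λ o z) R ≤ ((pts (sub Λ o z) R).card : ℝ) ^ (1 / (q : ℝ)) *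
        ((Q : ℝ) ^ ((1 - 1 / (q : ℝ)) * ((rk Λ R : ℝ) - 1)) * (Q : ℝ) ^ (-(1 - 1 / (q : ℝ)))) := by
      intro z hz
      rw [hZ2, Finset.mem_filter] at hz
      have h8 : rk (sub Λ o z) R + 1 ≤ rk Λ R := by
        have := rk_sub_le Λ R o z
        omega
      have h9 : (rk (sub Λ o z) R : ℝ) + 1 ≤ rk Λ R := by exact_mod_cast h8
      unfold Wt
      refine mul_le_mul_of_nonneg_left ?_ (by positivity)
      rw [← Real.rpow_add hQ0]
      refine Real.rpow_le_rpow_of_exponent_le hQ1 ?_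
      nlinarith
    refine (Finset.sum_le_sum h7).trans ?_
    rw [← Finset.sum_mul]
    have h8 : (Q : ℝ) ^ (1 - 1 / (q : ℝ)) * (Q : ℝ) ^ (-(1 - 1 / (q : ℝ))) = 1 := by
      rw [← Real.rpow_add hQ0, add_neg_cancel, Real.rpow_zero]
    have h9 : (X : ℝ) ^ (ε / q) ≤ (X : ℝ) ^ ε * (Q : ℝ) ^ (max 0 (1 - (m : ℝ) / q)) := by
      have e1 : (X : ℝ) ^ (ε / q) ≤ (X : ℝ) ^ ε := by
        refine Real.rpow_le_rpow_of_exponent_le hX1 ?_
        exact div_le_self hε.le (by exact_mod_cast hq)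
      have e2 : 1 ≤ (Q : ℝ) ^ (max 0 (1 - (m : ℝ) / q)) := Real.one_le_rpow hQ1 (le_max_left _ _)
      have e3 : (0 : ℝ) ≤ (X : ℝ) ^ ε := by positivity
      nlinarith
    calc (∑ z ∈ Z2, ((pts (sub Λ o z) R).card : ℝ) ^ (1 / (q : ℝ))) *
          ((Q : ℝ) ^ ((1 - 1 / (q : ℝ)) * ((rk Λ R : ℝ) - 1)) * (Q : ℝ) ^ (-(1 - 1 / (q : ℝ))))
        ≤ ((Q : ℝ) ^ (1 - 1 / (q : ℝ)) *
          (C2 ^ (1 / (q : ℝ)) * (X : ℝ) ^ (ε / q) * ((pts Λ R).card : ℝ) ^ (1 / (q : ℝ)))) *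
          ((Q : ℝ) ^ ((1 - 1 / (q : ℝ)) * ((rk Λ R : ℝ) - 1)) * (Q : ℝ) ^ (-(1 - 1 / (q : ℝ)))) :=
          mul_le_mul_of_nonneg_right h6 (by positivity)
      _ = C2 ^ (1 / (q : ℝ)) * (X : ℝ) ^ (ε / q) * Wt q Q Λ R *
          ((Q : ℝ) ^ (1 - 1 / (q : ℝ)) * (Q : ℝ) ^ (-(1 - 1 / (q : ℝ)))) := by
          unfold Wt
          ring
      _ = C2 ^ (1 / (q : ℝ)) * (X : ℝ) ^ (ε / q) * Wt q Q Λ R := by rw [h8, mul_one]
      _ ≤ C2 ^ (1 / (q : ℝ)) * ((X : ℝ) ^ ε * (Q : ℝ) ^ (max 0 (1 - (m : ℝ) / q))) * Wt q Q Λ R := by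
          refine mul_le_mul_of_nonneg_right (mul_le_mul_of_nonneg_left h9 (by positivity)) (hWt Λ)
      _ = _ := by ring

end Pool.Agent.Run7.h777.VA
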